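import Pool.Agent.Q17.WR.Stm

/-!
# Alternating sums of products (JOB PRD)
-/

set_option autoImplicit false

open scoped Classical

noncomputable section

namespace Pool.Agent.Q177.WR

open Pool.Agent.Q18.KRX Pool.Agent.Q17.WR

section

variable {α : Type*} [PartialOrder α]

/-- chains by their greatest member -/
theorem E_max : ∀ (n : ℕ) (Z : Finset α), Z.card = n →
    E Z = 1 - ∑ x ∈ Z, E (Z.filter (fun y => y < x)) := by
  intro n
  induction n with
  | zero =>
    intro Z hZ
    rw [Finset.card_eq_zero] at hZ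
    subst hZ
    unfold E
    rw [Finset.powerset_empty, Finset.filter_singleton, if_pos (by simp)]
    simp
  | succ n ih =>
    intro Z hZ
    have hne : Z.Nonempty := by
      rw [← Finset.card_pos]
      omega
    obtain ⟨x, hx⟩ := Z.exists_maximal hne
    have hxZ : x ∈ Z := hx.prop
    have hmax : ∀ y ∈ Z, ¬ x < y := by
      intro y hy hxy
      exact absurd (lt_of_lt_of_le hxy (hx.le_of_ge hy hxy.le)) (lt_irrefl _)
    have hcard : (Z.erase x).card = n := by
      rw [Finset.card_erase_of_mem hxZ, hZ]
      rfl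
    have h1 : link Z x = Z.filter (fun y => y < x) := by
      unfold link
      refine Finset.filter_congr fun y hy => ?_
      constructor
      · rintro (h | h)
        · exact h
        · exact absurd h (hmax y hy)
      · exact Or.inl
    have h2 : ∀ y ∈ Z.erase x, E ((Z.erase x).filter (fun z => z < y)) =
        E (Z.filter (fun z => z < y)) := by
      intro y hy
      congr 1
      ext z
      simp only [Finset.mem_filter, Finset.mem_erase]
      constructor
      · rintro ⟨⟨-, a⟩, b⟩
        exact ⟨a, b⟩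
      · rintro ⟨a, b⟩
        refine ⟨⟨?_, a⟩, b⟩
        rintro rfl
        exact hmax y (Finset.mem_of_mem_erase hy) b
    rw [E_erase hxZ, h1, ih _ hcard, Finset.sum_congr rfl h2, ← Finset.add_sum_erase Z _ hxZ]
    ring

variable [OrderBot α]

/-- the Moebius function -/
def mo (X : Finset α) (x : α) : ℤ :=
  if x = ⊥ then 1 else - E ((X.erase ⊥).filter (fun y => y < x))

theorem E_sum (X : Finset α) (hX : ⊥ ∈ X) : E (X.erase ⊥) = ∑ x ∈ X, mo X x := by
  rw [E_max _ _ rfl, ← Finset.add_sum_erase X _ hX]
  have h1 : mo X ⊥ = 1 := by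
    unfold mo
    rw [if_pos rfl]
  rw [h1, sub_eq_add_neg, ← Finset.sum_neg_distrib]
  congr 1
  refine Finset.sum_congr rfl fun x hx => ?_
  unfold mo
  rw [if_neg (Finset.ne_of_mem_erase hx)]

theorem mo_sum (X : Finset α) (hX : ⊥ ∈ X) (x : α) (hx : x ∈ X) :
    ∑ y ∈ X.filter (fun y => y ≤ x), mo X y = if x = ⊥ then 1 else 0 := by
  by_cases h : x = ⊥
  · subst h
    rw [if_pos rfl]
    have h1 : X.filter (fun y => y ≤ ⊥) = {⊥} := by
      ext y
      simp only [Finset.mem_filter, Finset.mem_singleton, le_bot_iff]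
      constructor
      · exact fun h => h.2
      · intro h
        subst h
        exact ⟨hX, rfl⟩
    rw [h1, Finset.sum_singleton]
    unfold mo
    rw [if_pos rfl]
  · rw [if_neg h]
    have hb : (⊥ : α) < x := bot_lt_iff_ne_bot.mpr h
    have h1 : X.filter (fun y => y ≤ x) = insert x (X.filter (fun y => y < x)) := by
      ext y
      simp only [Finset.mem_filter, Finset.mem_insert]
      constructor
      · rintro ⟨a, b⟩
        rcases eq_or_lt_of_le b with b | b
        · exact Or.inl b
        · exact Or.inr ⟨a, b⟩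
      · rintro (a | ⟨a, b⟩)
        · subst a
          exact ⟨hx, le_rfl⟩
        · exact ⟨a, b.le⟩
    have h2 : x ∉ X.filter (fun y => y < x) := fun h => lt_irrefl _ (Finset.mem_filter.mp h).2
    rw [h1, Finset.sum_insert h2]
    set Y := X.filter (fun y => y < x) with hY
    have hbY : ⊥ ∈ Y := Finset.mem_filter.mpr ⟨hX, hb⟩
    have h3 : (X.erase ⊥).filter (fun y => y < x) = Y.erase ⊥ := by
      rw [hY, Finset.filter_erase]
    have h4 : mo X x = - E (Y.erase ⊥) := by
      unfold mo
      rw [if_neg h, h3]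
    have h5 : ∀ y ∈ Y, mo Y y = mo X y := by
      intro y hy
      unfold mo
      by_cases hy0 : y = ⊥
      · rw [if_pos hy0, if_pos hy0]
      · rw [if_neg hy0, if_neg hy0]
        congr 2
        ext z
        simp only [Finset.mem_filter, Finset.mem_erase, hY]
        constructor
        · rintro ⟨⟨a, b, c⟩, d⟩
          exact ⟨⟨a, b⟩, d⟩
        · rintro ⟨⟨a, b⟩, d⟩
          exact ⟨⟨a, b, d.trans (Finset.mem_filter.mp hy).2⟩, d⟩
    rw [h4, E_sum Y hbY, Finset.sum_congr rfl h5]
    ring

theorem mo_unique (X : Finset α) (hX : ⊥ ∈ X) (m : α → ℤ)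
    (hm : ∀ x ∈ X, ∑ y ∈ X.filter (fun y => y ≤ x), m y = if x = ⊥ then 1 else 0) :
    ∀ (n : ℕ) (x : α), x ∈ X → (X.filter (fun y => y < x)).card = n → m x = mo X x := by
  intro n
  induction n using Nat.strong_induction_on with
  | _ n ih =>
    intro x hx hn
    have h1 : X.filter (fun y => y ≤ x) = insert x (X.filter (fun y => y < x)) := by
      ext y
      simp only [Finset.mem_filter, Finset.mem_insert]
      constructor
      · rintro ⟨a, b⟩
        rcases eq_or_lt_of_le b with b | b
        · exact Or.inl b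
        · exact Or.inr ⟨a, b⟩
      · rintro (a | ⟨a, b⟩)
        · subst a
          exact ⟨hx, le_rfl⟩
        · exact ⟨a, b.le⟩
    have h2 : x ∉ X.filter (fun y => y < x) := fun h => lt_irrefl _ (Finset.mem_filter.mp h).2
    have h3 := hm x hx
    have h4 := mo_sum X hX x hx
    rw [h1, Finset.sum_insert h2] at h3 h4
    have h5 : ∑ y ∈ X.filter (fun y => y < x), m y = ∑ y ∈ X.filter (fun y => y < x), mo X y := by
      refine Finset.sum_congr rfl fun y hy => ?_
      obtain ⟨hyX, hyx⟩ := Finset.mem_filter.mp hy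
      refine ih _ ?_ y hyX rfl
      rw [← hn]
      refine Finset.card_lt_card ?_
      refine (Finset.ssubset_iff_of_subset ?_).mpr ⟨y, hy, ?_⟩
      · intro z hz
        obtain ⟨a, b⟩ := Finset.mem_filter.mp hz
        exact Finset.mem_filter.mpr ⟨a, b.trans hyx⟩
      · intro hz
        exact lt_irrefl _ (Finset.mem_filter.mp hz).2
    linarith

end

theorem t_PRD : S_PRD := by
  intro I _ α _ _ X hX
  have hb : (⊥ : ∀ i, α i) ∈ Fintype.piFinset X := by
    rw [Fintype.mem_piFinset]
    exact fun i => hX i
  have e0 := E_sum (Fintype.piFinset X) hb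
  refine Eq.trans ?_ (e0.trans ?_)
  · congr 1
    ext f
    simp only [Finset.mem_erase]
  have key : ∀ f ∈ Fintype.piFinset X, (∏ i, mo (X i) (f i)) = mo (Fintype.piFinset X) f := by
    intro f hf
    refine mo_unique (Fintype.piFinset X) hb (fun f => ∏ i, mo (X i) (f i)) ?_ _ f hf rfl
    intro f hf
    have hf' := Fintype.mem_piFinset.mp hf
    have h1 : (Fintype.piFinset X).filter (fun g => g ≤ f) =
        Fintype.piFinset (fun i => (X i).filter (fun y => y ≤ f i)) := by
      ext g
      simp only [Finset.mem_filter, Fintype.mem_piFinset, Pi.le_def]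
      exact ⟨fun h i => ⟨h.1 i, h.2 i⟩, fun h => ⟨fun i => (h i).1, fun i => (h i).2⟩⟩
    rw [h1, ← Finset.prod_univ_sum (fun i => (X i).filter (fun y => y ≤ f i))
      (fun i y => mo (X i) y)]
    rw [Finset.prod_congr rfl fun i _ => mo_sum (X i) (hX i) (f i) (hf' i)]
    by_cases h : f = ⊥
    · rw [if_pos h]
      refine Finset.prod_eq_one fun i _ => ?_
      rw [if_pos]
      rw [h]
      rfl
    · rw [if_neg h]
      have : ∃ i, f i ≠ ⊥ := by
        by_contra hc
        push Not at hc
        exact h (funext hc)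
      obtain ⟨i, hi⟩ := this
      exact Finset.prod_eq_zero (Finset.mem_univ i) (if_neg hi)
  rw [← Finset.sum_congr rfl key, ← Finset.prod_univ_sum X (fun i y => mo (X i) y)]
  exact Finset.prod_congr rfl fun i _ => (E_sum (X i) (hX i)).symm

end Pool.Agent.Q177.WR
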